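import Pool.Agent.ZRT.StmtsB

/-!
# ZRT, row CH5: a geodesic of length `L < π` between opposite vectors of norm `L/2` passes through 0
-/

noncomputable section

set_option autoImplicit false

open scoped ContDiff Topology RealInnerProductSpace
open Set MeasureTheory

namespace Pool.Agent.ZRT.H92

open Pool.Agent.RF Pool.Agent.MVS Pool.Agent.ZRT

theorem nm_cont (G : E5 → Bil E5) (m : E5) : Continuous fun v : E5 => nm G m v := by
  unfold nm
  exact Real.continuous_sqrt.comp ((G m).continuous.clm_apply continuous_id)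

theorem nm_eq_zero {G : E5 → Bil E5} (hG : IsCyl G) {m : E5} (hm : m ∈ Om (Fin 5)) {v : E5}
    (h : nm G m v = 0) : v = 0 := by
  by_contra hv
  have h1 := hG.metric.pos m hm v hv
  have h2 : 0 < nm G m v := Real.sqrt_pos.2 h1
  linarith

/-- CH5 -/
theorem ch5 (xb1 : Xb1Statement) (xhc : XhcStatement) (lsm : LsmStatement)
    (stu : StuStatement) : Ch5Statement := by
  intro G ex hG hS hE m hm p hp v L η hL0 hLpi hvL hη h0 h1
  obtain ⟨b1, -, b3, b4, b5, -⟩ := xb1 G ex hG hE p hp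
  by_contra hne
  -- the curve
  obtain ⟨c, hc⟩ : ∃ c : ℝ → E5, ∀ t, c t = ex (p, t • v) := ⟨_, fun _ => rfl⟩
  have hcs : ContDiff ℝ ∞ c := by
    have h2 : c = (fun u : E5 => ex (p, u)) ∘ fun t : ℝ => t • v := by
      funext t; exact hc t
    rw [h2]
    exact b1.comp (contDiff_id.smul contDiff_const)
  have hcη : IsLift G ex m c η := by
    have h2 : c = fun t => ex (p, t • v) := by funext t; exact hc t
    rw [h2]; exact hη
  have hsm := lsm G ex hG hS hE m hm c η hcs hcη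
  have hG1 : G p v v = L ^ 2 := by
    rw [← hvL, nm, Real.sq_sqrt]
    by_contra hneg
    push Not at hneg
    have h2 : nm G p v = 0 := Real.sqrt_eq_zero_of_nonpos hneg.le
    linarith
  have hd1 : ∀ t, deriv c t = Tf ex p v t := by
    intro t
    have h2 : c = fun t => ex (p, t • v) := by funext t; exact hc t
    rw [h2]; exact (b3 v t).deriv
  have hd1' : deriv c = fun t => Tf ex p v t := by funext t; exact hd1 t
  have hd2 : ∀ t, deriv (deriv c) t = - chris G (c t) (Tf ex p v t) (Tf ex p v t) := by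
    intro t
    rw [hd1', (b4 v t).deriv, hc]
  -- the zeros around 1/2
  have hηc := hη.cont
  obtain ⟨A, hA⟩ : ∃ A : Set ℝ, A = {t | t ∈ Icc (0 : ℝ) (1 / 2) ∧ (t = 0 ∨ η t = 0)} := ⟨_, rfl⟩
  obtain ⟨B, hB⟩ : ∃ B : Set ℝ, B = {t | t ∈ Icc (1 / 2 : ℝ) 1 ∧ (t = 1 ∨ η t = 0)} := ⟨_, rfl⟩
  have hz : ∀ u w : ℝ, 0 ≤ u → w ≤ 1 → ∀ e : ℝ, e ∈ Icc u w →
      IsCompact {t | t ∈ Icc u w ∧ (t = e ∨ η t = 0)} := by
    intro u w hu hw e he
    have h2 : IsClosed {t | t ∈ Icc u w ∧ η t = 0} := by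
      have h3 : ContinuousOn η (Icc u w) := hηc.mono (Icc_subset_Icc hu hw)
      exact h3.preimage_isClosed_of_isClosed isClosed_Icc isClosed_singleton
    have h3 : {t | t ∈ Icc u w ∧ (t = e ∨ η t = 0)} = {e} ∪ {t | t ∈ Icc u w ∧ η t = 0} := by
      ext t
      constructor
      · rintro ⟨h4, h5 | h5⟩
        · exact Or.inl h5
        · exact Or.inr ⟨h4, h5⟩
      · rintro (h4 | ⟨h4, h5⟩)
        · rw [h4]; exact ⟨he, Or.inl rfl⟩
        · exact ⟨h4, Or.inr h5⟩
    rw [h3]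
    refine isCompact_singleton.union ?_
    exact isCompact_Icc.of_isClosed_subset h2 fun t ht => ht.1
  have hAc : IsCompact A := by
    rw [hA]; exact hz 0 (1 / 2) le_rfl (by norm_num) 0 ⟨le_rfl, by norm_num⟩
  have hBc : IsCompact B := by
    rw [hB]; exact hz (1 / 2) 1 (by norm_num) le_rfl 1 ⟨by norm_num, le_rfl⟩
  have hAn : A.Nonempty := ⟨0, by rw [hA]; exact ⟨⟨le_rfl, by norm_num⟩, Or.inl rfl⟩⟩
  have hBn : B.Nonempty := ⟨1, by rw [hB]; exact ⟨⟨by norm_num, le_rfl⟩, Or.inl rfl⟩⟩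
  obtain ⟨a, ha⟩ : ∃ a, a = sSup A := ⟨_, rfl⟩
  obtain ⟨b, hb⟩ : ∃ b, b = sInf B := ⟨_, rfl⟩
  have haA : a ∈ A := by rw [ha]; exact hAc.sSup_mem hAn
  have hbB : b ∈ B := by rw [hb]; exact hBc.sInf_mem hBn
  have haU : ∀ t ∈ A, t ≤ a := fun t ht => by rw [ha]; exact le_csSup hAc.bddAbove ht
  have hbU : ∀ t ∈ B, b ≤ t := fun t ht => by rw [hb]; exact csInf_le hBc.bddBelow ht
  have haA' : a ∈ Icc (0 : ℝ) (1 / 2) ∧ (a = 0 ∨ η a = 0) := by rw [hA] at haA; exact haA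
  have hbB' : b ∈ Icc (1 / 2 : ℝ) 1 ∧ (b = 1 ∨ η b = 0) := by rw [hB] at hbB; exact hbB
  have ha2 : a < 1 / 2 := by
    rcases haA'.1.2.lt_or_eq with h | h
    · exact h
    · exfalso
      rcases haA'.2 with h2 | h2
      · rw [h2] at h; norm_num at h
      · rw [h] at h2; exact hne h2
  have hb2 : 1 / 2 < b := by
    rcases hbB'.1.1.lt_or_eq with h | h
    · exact h
    · exfalso
      rcases hbB'.2 with h2 | h2
      · rw [h2] at h; norm_num at h
      · rw [← h] at h2; exact hne h2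
  have hnz : ∀ t ∈ Ioo a b, η t ≠ 0 := by
    intro t ht h2
    rcases le_total t (1 / 2) with h3 | h3
    · have h4 : t ∈ A := by
        rw [hA]; exact ⟨⟨haA'.1.1.trans ht.1.le, h3⟩, Or.inr h2⟩
      linarith [haU t h4, ht.1]
    · have h4 : t ∈ B := by
        rw [hB]; exact ⟨⟨h3, ht.2.le.trans hbB'.1.2⟩, Or.inr h2⟩
      linarith [hbU t h4, ht.2]
  have hsub : Ioo a b ⊆ Ioo 0 1 := Ioo_subset_Ioo haA'.1.1 hbB'.1.2
  have hsubI : Icc a b ⊆ Icc 0 1 := Icc_subset_Icc haA'.1.1 hbB'.1.2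
  -- the lifted curve is the geodesic
  have hev : ∀ s ∈ Ioo a b, (fun r => ex (m, η r)) =ᶠ[𝓝 s] c := by
    intro s hs
    filter_upwards [isOpen_Ioo.mem_nhds (hsub hs)] with t ht
    exact hcη.eq t ⟨ht.1.le, ht.2.le⟩
  have hev1 : ∀ s ∈ Ioo a b, deriv (fun r => ex (m, η r)) s = Tf ex p v s := by
    intro s hs
    rw [(hev s hs).deriv_eq, hd1]
  have hev2 : ∀ s ∈ Ioo a b, deriv (deriv (fun r => ex (m, η r))) s =
      - chris G (c s) (Tf ex p v s) (Tf ex p v s) := by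
    intro s hs
    rw [(hev s hs).deriv.deriv_eq, hd2]
  have hes : ∀ s ∈ Ioo a b, ex (m, η s) = c s := fun s hs => (hev s hs).eq_of_nhds
  obtain ⟨f', f'', hf⟩ := xhc G ex hG hS hE m hm (Ioo a b) η L isOpen_Ioo (hsm.mono hsub)
    (fun s hs => ⟨hnz s hs, hη.lt s (hsubI (Ioo_subset_Icc_self hs))⟩)
    (fun s hs => by rw [hev2 s hs, hev1 s hs, hes s hs])
    (fun s hs => by rw [hev1 s hs, hes s hs, hc, b5 v s, hG1])
  have hend : ∀ t : ℝ, η t = 0 → Real.cos (L * (t - 1 / 2)) ≤ Real.cos (nm G m (η t)) := by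
    intro t ht
    rw [ht]
    have : nm G m 0 = 0 := by simp [nm]
    rw [this, Real.cos_zero]
    exact Real.cos_le_one _
  have key := stu L a b (fun t => Real.cos (nm G m (η t))) f' f'' hL0 hLpi haA'.1.1
    (ha2.trans hb2) hbB'.1.2
    (Real.continuous_cos.comp_continuousOn ((nm_cont G m).comp_continuousOn (hηc.mono hsubI)))
    (fun t ht => hf t ht)
    (by
      rcases haA'.2 with h2 | h2
      · rw [h2, h0]
        rw [show L * (0 - 1 / 2) = -(L / 2) by ring, Real.cos_neg]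
      · exact hend a h2)
    (by
      rcases hbB'.2 with h2 | h2
      · rw [h2, h1]
        rw [show L * (1 - 1 / 2) = L / 2 by ring]
      · exact hend b h2)
    (1 / 2) ⟨ha2.le, hb2.le⟩
  rw [sub_self, mul_zero, Real.cos_zero] at key
  -- conclusion
  have hnn : 0 ≤ nm G m (η (1 / 2)) := Real.sqrt_nonneg _
  have hlt := hη.lt (1 / 2) ⟨by norm_num, by norm_num⟩
  have hcos : Real.cos (nm G m (η (1 / 2))) = 1 := le_antisymm (Real.cos_le_one _) key
  have hn0 : nm G m (η (1 / 2)) = 0 := by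
    rcases hnn.eq_or_lt with h2 | h2
    · exact h2.symm
    · exfalso
      have h3 := Real.cos_lt_cos_of_nonneg_of_le_pi le_rfl hlt.le h2
      rw [Real.cos_zero, hcos] at h3
      exact lt_irrefl _ h3
  exact hne (nm_eq_zero hG hm hn0)

end Pool.Agent.ZRT.H92
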